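import Pool.Agent.P.MP_3c8515_co.Base10

open Pool.Agent.P.MP_3c8515_co

/-- For every `d ≥ 4` some `d`-polytope is not (strongly) `(0, d - 1)`-scribable. -/
theorem Pool.Agent.Results.MP_3c8515_co.NotScribable.result :
    ∀ d : ℕ, 4 ≤ d → ∃ P : Set (EuclideanSpace ℝ (Fin d)),
      IsPolytope d P ∧ ¬ Scribable 0 (d - 1) P :=
  fun _ hd => main hd
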